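import Pool.Agent.H20.LIM.Targets

/-! Module EXPA of the board `lim_modules`. -/

set_option autoImplicit false

open Complex MeasureTheory Set Filter Topology Metric

namespace Pool.Agent.H5.LIM

open Pool.Agent.H20.LIM

/-- the reflection `z ↦ -conj z` -/
noncomputable def sg (z : ℂ) : ℂ := -(starRingEnd ℂ) z

theorem sg_mp : MeasurePreserving sg volume volume := by
  have h1 : MeasurePreserving (Complex.conjLIE : ℂ → ℂ) volume volume :=
    Complex.conjLIE.measurePreserving
  have h2 : MeasurePreserving (Neg.neg : ℂ → ℂ) volume volume :=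
    Measure.measurePreserving_neg volume
  exact h2.comp h1

theorem sg_emb : MeasurableEmbedding sg := by
  have h1 : MeasurableEmbedding (Complex.conjLIE : ℂ → ℂ) :=
    Complex.conjLIE.toHomeomorph.measurableEmbedding
  have h2 : MeasurableEmbedding (Neg.neg : ℂ → ℂ) := (Homeomorph.neg ℂ).measurableEmbedding
  exact h2.comp h1

theorem L1_sg (h : ℂ → ℝ) (R : ℝ) :
    ∫⁻ z in closedBall (0 : ℂ) R, ‖h (sg z)‖ₑ = ∫⁻ z in closedBall (0 : ℂ) R, ‖h z‖ₑ := by
  have h1 := sg_mp.setLIntegral_comp_preimage_emb sg_emb (fun z => ‖h z‖ₑ) (closedBall (0 : ℂ) R)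
  have h2 : sg ⁻¹' closedBall (0 : ℂ) R = closedBall (0 : ℂ) R := by
    ext z
    simp [sg]
  rw [h2] at h1
  exact h1

theorem L1_scale (h : ℂ → ℝ) (l R R' : ℝ) (hl : 1 ≤ l) (hR : l * R ≤ R') :
    ∫⁻ z in closedBall (0 : ℂ) R, ‖h (l * z)‖ₑ ≤ ∫⁻ z in closedBall (0 : ℂ) R', ‖h z‖ₑ := by
  have hl0 : 0 < l := by linarith
  set f : ℂ → ENNReal := (closedBall (0 : ℂ) R').indicator fun z => ‖h z‖ₑ with hf
  have h1 : ∫⁻ z in closedBall (0 : ℂ) R, ‖h (l * z)‖ₑ ≤ ∫⁻ z, f (l • z) := by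
    rw [← lintegral_indicator measurableSet_closedBall]
    refine lintegral_mono fun z => ?_
    by_cases hz : z ∈ closedBall (0 : ℂ) R
    · rw [indicator_of_mem hz, hf, indicator_of_mem]
      · simp [Complex.real_smul]
      · rw [mem_closedBall_zero_iff] at hz ⊢
        rw [norm_smul, Real.norm_eq_abs, abs_of_pos hl0]
        exact (mul_le_mul_of_nonneg_left hz hl0.le).trans hR
    · rw [indicator_of_notMem hz]
      exact zero_le
  have hemb : MeasurableEmbedding (fun z : ℂ => l • z) :=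
    (Homeomorph.smulOfNeZero l hl0.ne').measurableEmbedding
  have h2 : ∫⁻ z, f (l • z) = ENNReal.ofReal |(l ^ Module.finrank ℝ ℂ)⁻¹| * ∫⁻ z, f z := by
    rw [← hemb.lintegral_map, Measure.map_addHaar_smul volume hl0.ne', lintegral_smul_measure,
      smul_eq_mul]
  have h3 : ENNReal.ofReal |(l ^ Module.finrank ℝ ℂ)⁻¹| ≤ 1 := by
    rw [ENNReal.ofReal_le_one, abs_of_nonneg (by positivity)]
    exact inv_le_one_of_one_le₀ (one_le_pow₀ hl)
  calc ∫⁻ z in closedBall (0 : ℂ) R, ‖h (l * z)‖ₑ ≤ ∫⁻ z, f (l • z) := h1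
    _ = ENNReal.ofReal |(l ^ Module.finrank ℝ ℂ)⁻¹| * ∫⁻ z, f z := h2
    _ ≤ 1 * ∫⁻ z, f z := mul_le_mul_left h3 _
    _ = ∫⁻ z in closedBall (0 : ℂ) R', ‖h z‖ₑ := by
      rw [one_mul, hf, lintegral_indicator measurableSet_closedBall]

theorem c0_le (R : ℝ) (hR : 2 ≤ R) :
    ENNReal.ofReal (1 / 3) ≤ ∫⁻ z in closedBall (0 : ℂ) R, ‖z.re‖ₑ := by
  have h1 : ball (1 : ℂ) (1 / 2) ⊆ closedBall (0 : ℂ) R := by
    intro z hz
    rw [mem_ball_iff_norm] at hz
    rw [mem_closedBall_zero_iff]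
    have h2 : ‖z‖ ≤ ‖z - 1‖ + ‖(1 : ℂ)‖ := by
      have := norm_add_le (z - 1) (1 : ℂ)
      rwa [sub_add_cancel] at this
    rw [norm_one] at h2
    linarith
  have h2 : ENNReal.ofReal (1 / 2) * volume (ball (1 : ℂ) (1 / 2)) ≤
      ∫⁻ z in ball (1 : ℂ) (1 / 2), ‖z.re‖ₑ := by
    rw [← setLIntegral_const]
    refine setLIntegral_mono' measurableSet_ball fun z hz => ?_
    rw [mem_ball_iff_norm] at hz
    have h3 : |(z - 1).re| ≤ ‖z - 1‖ := Complex.abs_re_le_norm _
    have h4 : 1 / 2 ≤ z.re := by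
      rw [Complex.sub_re, Complex.one_re] at h3
      have := (abs_lt.1 (h3.trans_lt hz)).1
      linarith
    rw [← ofReal_norm, Real.norm_eq_abs, abs_of_nonneg (by linarith)]
    exact ENNReal.ofReal_le_ofReal h4
  refine le_trans ?_ (h2.trans (lintegral_mono_set h1))
  rw [Complex.volume_ball]
  have h5 : (NNReal.pi : ENNReal) = ENNReal.ofReal Real.pi := by
    rw [← NNReal.coe_real_pi, ENNReal.ofReal_coe_nnreal]
  rw [h5, ← ENNReal.ofReal_pow (by norm_num), ← ENNReal.ofReal_mul (by positivity),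
    ← ENNReal.ofReal_mul (by positivity)]
  refine ENNReal.ofReal_le_ofReal ?_
  have := Real.pi_gt_three
  nlinarith

theorem ae_ne_zero_of_diff (F : ℂ → ℂ) (hF : Differentiable ℂ F) (z₀ : ℂ) (h0 : F z₀ ≠ 0) :
    ∀ᵐ z : ℂ, F z ≠ 0 := by
  have h1 := AnalyticOnNhd.preimage_zero_mem_codiscrete (f := F) (x := z₀)
    (fun z _ => hF.analyticAt z) h0
  have h2 : ae (volume.restrict (univ : Set ℂ)) ≤ codiscreteWithin (univ : Set ℂ) :=
    ae_restrict_le_codiscreteWithin MeasurableSet.univ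
  rw [Measure.restrict_univ] at h2
  have h3 := h2 h1
  filter_upwards [h3] with z hz
  exact hz


/-- the functional equation fixes the number of zeros per period up to a small error -/
theorem expa_step1 (q a d R : ℝ) (uV : ℂ → ℝ) (F : ℂ → ℂ) (Λ : ℝ) (hΛ : 0 < Λ) (hR : 2 ≤ R)
    (hd : 0 ≤ d) (hV : Continuous uV) (hVs : ∀ z, uV (sg z) = uV z + q * z.re)
    (hF : Differentiable ℂ F) (hF1 : F 1 ≠ 0)
    (hfe : ∀ z, ‖F z‖ = Real.exp (-(a * z.re)) * ‖F (sg z)‖)
    (hL : L1 R (fun z => Real.log ‖F z‖ / Λ - uV z) ≤ ENNReal.ofReal d) :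
    |a / Λ - q| ≤ 6 * d := by
  set h : ℂ → ℝ := fun z => Real.log ‖F z‖ / Λ - uV z with hh
  have hmeas : Measurable h := by
    refine Measurable.sub (Measurable.div_const ?_ _) hV.measurable
    exact Real.measurable_log.comp hF.continuous.norm.measurable
  have hae : ∀ᵐ z : ℂ, (q - a / Λ) * z.re = h z - h (sg z) := by
    filter_upwards [ae_ne_zero_of_diff F hF 1 hF1] with z hz
    have h1 := hfe z
    have h2 : ‖F (sg z)‖ ≠ 0 := by
      intro h0
      rw [h0, mul_zero, norm_eq_zero] at h1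
      exact hz h1
    have h3 : Real.log ‖F z‖ = -(a * z.re) + Real.log ‖F (sg z)‖ := by
      rw [h1, Real.log_mul (Real.exp_ne_zero _) h2, Real.log_exp]
    simp only [hh]
    rw [h3, hVs]
    field_simp
    ring
  have h4 : ∫⁻ z in closedBall (0 : ℂ) R, ‖(q - a / Λ) * z.re‖ₑ ≤ ENNReal.ofReal (2 * d) := by
    calc ∫⁻ z in closedBall (0 : ℂ) R, ‖(q - a / Λ) * z.re‖ₑ
        = ∫⁻ z in closedBall (0 : ℂ) R, ‖h z - h (sg z)‖ₑ := by
          refine lintegral_congr_ae (ae_restrict_of_ae ?_)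
          filter_upwards [hae] with z hz
          rw [hz]
      _ ≤ ∫⁻ z in closedBall (0 : ℂ) R, (‖h z‖ₑ + ‖h (sg z)‖ₑ) :=
          lintegral_mono fun z => enorm_sub_le
      _ = (∫⁻ z in closedBall (0 : ℂ) R, ‖h z‖ₑ) +
            ∫⁻ z in closedBall (0 : ℂ) R, ‖h (sg z)‖ₑ :=
          lintegral_add_left hmeas.enorm _
      _ = (∫⁻ z in closedBall (0 : ℂ) R, ‖h z‖ₑ) +
            ∫⁻ z in closedBall (0 : ℂ) R, ‖h z‖ₑ := by rw [L1_sg]
      _ ≤ ENNReal.ofReal d + ENNReal.ofReal d := add_le_add hL hL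
      _ = ENNReal.ofReal (2 * d) := by rw [← ENNReal.ofReal_add hd hd, two_mul]
  have h5 : ENNReal.ofReal |q - a / Λ| * ENNReal.ofReal (1 / 3) ≤ ENNReal.ofReal (2 * d) := by
    refine le_trans ?_ h4
    have h6 : ∫⁻ z in closedBall (0 : ℂ) R, ‖(q - a / Λ) * z.re‖ₑ =
        ENNReal.ofReal |q - a / Λ| * ∫⁻ z in closedBall (0 : ℂ) R, ‖z.re‖ₑ := by
      rw [← lintegral_const_mul' _ _ ENNReal.ofReal_ne_top]
      refine lintegral_congr fun z => ?_
      rw [enorm_mul, ← ofReal_norm (q - a / Λ), Real.norm_eq_abs]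
    rw [h6]
    exact mul_le_mul_right (c0_le R hR) _
  rw [← ENNReal.ofReal_mul (abs_nonneg _), ENNReal.ofReal_le_ofReal_iff (by linarith)] at h5
  rw [abs_sub_comm]
  linarith


theorem expa_EP (a l : ℝ) (N : ℕ) (F : ℂ → ℂ) (hN : 1 ≤ N) (hl : 1 ≤ l)
    (hla : l * a = Real.log N) (hF : Differentiable ℂ F)
    (hg : ∃ A B : ℝ, ∀ z : ℂ, ‖F z‖ ≤ Real.exp (A + B * |z.re|))
    (hr : ∀ x₀ : ℝ, ∃ B : ℝ, ∀ z : ℂ, x₀ ≤ z.re → ‖F z‖ ≤ B)
    (hfe : ∃ ε : ℂ, ‖ε‖ = 1 ∧ ∀ z : ℂ, F z = ε * cexp (-((a : ℝ) * z)) *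
      (starRingEnd ℂ) (F (-(starRingEnd ℂ) z))) :
    EP N (fun z => F (l * z)) := by
  have hl0 : 0 < l := by linarith
  refine ⟨?_, ?_, ?_, ?_⟩
  · exact hF.comp (by fun_prop : Differentiable ℂ fun z : ℂ => (l : ℂ) * z)
  · obtain ⟨A, B, hAB⟩ := hg
    refine ⟨A, B * l, fun z => (hAB _).trans (le_of_eq ?_)⟩
    rw [Complex.re_ofReal_mul, abs_mul, abs_of_pos hl0]
    ring_nf
  · intro x₀
    obtain ⟨B, hB⟩ := hr (l * x₀)
    refine ⟨B, fun z hz => hB _ ?_⟩
    rw [Complex.re_ofReal_mul]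
    exact mul_le_mul_of_nonneg_left hz hl0.le
  · obtain ⟨ε, hε, hfe⟩ := hfe
    refine ⟨ε, hε, fun z => ?_⟩
    have hN0 : (N : ℂ) ≠ 0 := by
      exact_mod_cast (by omega : N ≠ 0)
    have h1 : (N : ℂ) ^ (-z) = cexp (-((a : ℝ) * ((l : ℂ) * z))) := by
      rw [Complex.cpow_def_of_ne_zero hN0, ← Complex.natCast_log, ← hla]
      congr 1
      push_cast
      ring
    have h2 : -(starRingEnd ℂ) ((l : ℂ) * z) = (l : ℂ) * (-(starRingEnd ℂ) z) := by
      rw [map_mul, Complex.conj_ofReal]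
      ring
    show F (l * z) = _
    rw [hfe, h1, h2]

theorem pf_expa (hNAP : T_NAP) (hEXF : T_EXF) : T_EXPA := by
  intro q u hq hq1 hu R δ Λ₁ hR hδ
  obtain ⟨P, V, hP, hNice, hVu⟩ := hNAP q u hq hq1 hu R (δ / 4) (by linarith)
  obtain ⟨Kl, hKl⟩ := hNice.lip
  set θ : ℝ := 2 * Real.pi / P with hθ
  have hP0 : 0 < P := by linarith
  have hθ0 : 0 < θ := by positivity
  set uV : ℂ → ℝ := fun z => V z - q / 2 * z.re with huV
  have huVc : Continuous uV := by
    have := hKl.continuous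
    fun_prop
  have huVs : ∀ z, uV (sg z) = uV z + q * z.re := by
    intro z
    have h1 := hNice.symm z
    have h2 : (sg z).re = -z.re := by simp [sg]
    simp only [huV]
    rw [h2]
    unfold sg
    rw [h1]
    ring
  set K₁ : ℝ := Kl + q / 2 with hK₁
  have hK₁0 : 0 ≤ K₁ := by positivity
  have huVl : ∀ z w, |uV z - uV w| ≤ K₁ * ‖z - w‖ := by
    intro z w
    have h1 := hKl.dist_le_mul z w
    rw [Real.dist_eq, dist_eq_norm] at h1
    have h2 : |(z - w).re| ≤ ‖z - w‖ := Complex.abs_re_le_norm _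
    have h3 : uV z - uV w = (V z - V w) - q / 2 * (z - w).re := by
      simp only [huV, Complex.sub_re]
      ring
    rw [h3]
    calc |(V z - V w) - q / 2 * (z - w).re| ≤ |V z - V w| + |q / 2 * (z - w).re| := abs_sub _ _
      _ ≤ Kl * ‖z - w‖ + q / 2 * ‖z - w‖ := by
          refine add_le_add h1 ?_
          rw [abs_mul, abs_of_pos (by linarith : 0 < q / 2)]
          exact mul_le_mul_of_nonneg_left h2 (by linarith)
      _ = K₁ * ‖z - w‖ := by rw [hK₁]; ring
  set R' : ℝ := R + 2 with hR'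
  set M₀ : ℝ := |uV 0| + K₁ * R' with hM₀
  have hM₀0 : 0 ≤ M₀ := by positivity
  have hM₀le : ∀ w : ℂ, ‖w‖ ≤ R' → |uV w| ≤ M₀ := by
    intro w hw
    have h1 := huVl w 0
    rw [sub_zero] at h1
    have h2 : |uV w| ≤ |uV w - uV 0| + |uV 0| := by
      have := abs_add_le (uV w - uV 0) (uV 0)
      rwa [sub_add_cancel] at this
    have h3 := mul_le_mul_of_nonneg_left hw hK₁0
    linarith
  set vol : ℝ := Real.pi * R ^ 2 with hvol
  have hvol0 : 0 < vol := by positivity
  -- the parameters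
  set d : ℝ := min (min (δ / 16) (q / 12)) (min (δ * q / 2) (δ * q / (96 * (M₀ * vol + 1)))) with hd
  have hd0 : 0 < d := by
    refine lt_min (lt_min (by positivity) (by positivity)) (lt_min (by positivity) (by positivity))
  have hd1 : d ≤ δ / 16 := (min_le_left _ _).trans (min_le_left _ _)
  have hd2 : d ≤ q / 12 := (min_le_left _ _).trans (min_le_right _ _)
  have hd3 : d ≤ δ * q / 2 := (min_le_right _ _).trans (min_le_left _ _)
  have hd4 : d ≤ δ * q / (96 * (M₀ * vol + 1)) := (min_le_right _ _).trans (min_le_right _ _)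
  set η : ℝ := min (min 1 (1 / R)) (δ / (4 * ((4 * M₀ + K₁ * R) * vol + 1))) with hη
  have hη0 : 0 < η := by
    refine lt_min (lt_min (by positivity) (by positivity)) (by positivity)
  have hη1 : η ≤ 1 := (min_le_left _ _).trans (min_le_left _ _)
  have hη2 : η ≤ 1 / R := (min_le_left _ _).trans (min_le_right _ _)
  have hη3 : η ≤ δ / (4 * ((4 * M₀ + K₁ * R) * vol + 1)) := min_le_right _ _
  obtain ⟨Λ₀, hΛ₀⟩ := hEXF q P V hP0 hNice R' d (by linarith) hd0
  set Λ : ℝ := max (max Λ₀ 1) (max (2 * |Λ₁| / q) (2 / (q * η))) with hΛdef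
  have hΛa : Λ₀ ≤ Λ := (le_max_left _ _).trans (le_max_left _ _)
  have hΛb : 1 ≤ Λ := (le_max_right _ _).trans (le_max_left _ _)
  have hΛc : 2 * |Λ₁| / q ≤ Λ := (le_max_left _ _).trans (le_max_right _ _)
  have hΛd : 2 / (q * η) ≤ Λ := (le_max_right _ _).trans (le_max_right _ _)
  have hΛ0 : 0 < Λ := by linarith
  obtain ⟨K, F, hFd, hFg, hFr, hFfe, hFL, hFs, hF1⟩ := hΛ₀ Λ hΛa
  set a : ℝ := θ * K with ha
  have hF1ne : F 1 ≠ 0 := by
    intro h0
    have := hF1 1 (by simp)
    rw [h0] at this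
    norm_num at this
  have hfe2 : ∀ z, ‖F z‖ = Real.exp (-(a * z.re)) * ‖F (sg z)‖ := by
    intro z
    obtain ⟨ε, hε, hfe⟩ := hFfe
    rw [hfe z, norm_mul, norm_mul, hε, one_mul, Complex.norm_exp, Complex.norm_conj]
    congr 2
    rw [Complex.neg_re, Complex.re_ofReal_mul]
  have hs1 : |a / Λ - q| ≤ 6 * d :=
    expa_step1 q a d R' uV F Λ hΛ0 (by linarith) hd0.le huVc huVs hFd hF1ne hfe2 hFL
  have hρ := abs_le.1 hs1
  have hρ1 : q / 2 ≤ a / Λ := by linarith
  have hρ2 : a / Λ ≤ 2 * q := by linarith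
  have haΛ : q / 2 * Λ ≤ a := by
    rwa [le_div_iff₀ hΛ0] at hρ1
  have ha0 : 0 < a := lt_of_lt_of_le (by positivity) haΛ
  -- the number N
  set N : ℕ := ⌈Real.exp a⌉₊ with hN
  have hN1 : 1 ≤ N := Nat.one_le_iff_ne_zero.2 (Nat.ceil_pos.2 (Real.exp_pos a)).ne'
  have hNR : (0 : ℝ) < N := by exact_mod_cast hN1
  have hlog1 : a ≤ Real.log N := by
    rw [Real.le_log_iff_exp_le hNR]
    exact Nat.le_ceil _
  have hlog2 : Real.log N ≤ a + 1 := by
    rw [Real.log_le_iff_le_exp hNR]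
    have h1 : (N : ℝ) < Real.exp a + 1 := Nat.ceil_lt_add_one (Real.exp_pos a).le
    have h2 : (1 : ℝ) ≤ Real.exp a := Real.one_le_exp ha0.le
    have h3 : (2 : ℝ) ≤ Real.exp 1 := by
      have := Real.exp_one_gt_d9
      linarith
    rw [Real.exp_add]
    have h4 := mul_le_mul_of_nonneg_left h3 (Real.exp_pos a).le
    linarith
  set l : ℝ := Real.log N / a with hl
  have hla : l * a = Real.log N := div_mul_cancel₀ _ ha0.ne'
  have hl1 : 1 ≤ l := (one_le_div ha0).2 hlog1
  have hl0 : 0 < l := by linarith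
  have hl2 : l - 1 ≤ η := by
    have h1 : l - 1 ≤ 1 / a := by
      rw [hl, div_sub_one ha0.ne']
      exact div_le_div_of_nonneg_right (by linarith) ha0.le
    have h2 : 1 / a ≤ 2 / (q * Λ) := by
      rw [div_le_div_iff₀ ha0 (by positivity)]
      linarith
    have h3 : 2 / (q * Λ) ≤ η := by
      rw [div_le_iff₀ (by positivity)] at hΛd ⊢
      exact hΛd.trans (le_of_eq (by ring))
    linarith
  have hlR : l * R ≤ R' := by
    have h1 : (l - 1) * R ≤ 1 := by
      calc (l - 1) * R ≤ 1 / R * R := mul_le_mul_of_nonneg_right (hl2.trans hη2) hR.le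
        _ = 1 := by field_simp
    rw [hR']
    linarith
  have hlogN0 : 0 < Real.log N := ha0.trans_le hlog1
  have hNδ : ∀ w : ℂ, 1 / 2 + d ≤ w.re → ‖F w‖ ≤ (N : ℝ) ^ δ := by
    intro w hw
    refine (hFs w hw).trans ?_
    rw [Real.rpow_def_of_pos hNR]
    refine Real.exp_le_exp.2 ?_
    calc d * Λ ≤ δ * q / 2 * Λ := mul_le_mul_of_nonneg_right hd3 hΛ0.le
      _ = δ * (q / 2 * Λ) := by ring
      _ ≤ δ * Real.log N := mul_le_mul_of_nonneg_left (haΛ.trans hlog1) hδ.le
      _ = Real.log N * δ := mul_comm _ _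
  refine ⟨N, fun z => F (l * z), hN1, ?_, ?_, ?_, ?_, ?_⟩
  · exact expa_EP a l N F hN1 hl1 hla hFd hFg hFr hFfe
  · calc Λ₁ ≤ |Λ₁| := le_abs_self _
      _ ≤ q / 2 * Λ := by
          rw [div_le_iff₀ hq] at hΛc
          linarith
      _ ≤ Real.log N := haΛ.trans hlog1
  · -- the L1 estimate
    set s : ℝ := q * Λ / Real.log N with hs
    set ρ : ℝ := a / Λ with hρdef
    have hρ0 : 0 < ρ := by positivity
    have hsρ : s = q / (l * ρ) := by
      rw [hs, hρdef, ← hla]
      field_simp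
    have hlρ : q / 2 ≤ l * ρ := hρ1.trans (le_mul_of_one_le_left hρ0.le hl1)
    have hs2 : s ≤ 2 := by
      rw [hsρ, div_le_iff₀ (by positivity)]
      linarith
    have hs0 : 0 ≤ s := by rw [hsρ]; positivity
    have hs3 : |s - 1| ≤ 12 * d / q + 4 * (l - 1) := by
      have h1 : s - 1 = (q - l * ρ) / (l * ρ) := by
        rw [hsρ]
        field_simp
      have h2 : |q - l * ρ| ≤ 6 * d + (l - 1) * (2 * q) := by
        have h3 : q - l * ρ = (q - ρ) - (l - 1) * ρ := by ring
        rw [h3]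
        calc |(q - ρ) - (l - 1) * ρ| ≤ |q - ρ| + |(l - 1) * ρ| := abs_sub _ _
          _ ≤ 6 * d + (l - 1) * (2 * q) := by
              refine add_le_add ?_ ?_
              · rw [abs_sub_comm]
                exact hs1
              · rw [abs_mul, abs_of_nonneg (by linarith : 0 ≤ l - 1), abs_of_pos hρ0]
                exact mul_le_mul_of_nonneg_left hρ2 (by linarith)
      have h4 : q / 2 ≤ l * ρ := hlρ
      rw [h1, abs_div, abs_of_pos (by positivity : 0 < l * ρ), div_le_iff₀ (by positivity)]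
      refine h2.trans ?_
      have h5 : (12 * d / q + 4 * (l - 1)) * (q / 2) ≤ (12 * d / q + 4 * (l - 1)) * (l * ρ) := by
        refine mul_le_mul_of_nonneg_left h4 ?_
        have : 0 ≤ 12 * d / q := by positivity
        linarith
      refine le_trans (le_of_eq ?_) h5
      field_simp
      ring
    set h : ℂ → ℝ := fun z => Real.log ‖F z‖ / Λ - uV z with hh
    set c : ℝ := (12 * d / q + 4 * (l - 1)) * M₀ + K₁ * ((l - 1) * R) with hc
    have hc0 : 0 ≤ c := by
      have : 0 ≤ 12 * d / q := by positivity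
      have h7 : 0 ≤ l - 1 := by linarith
      positivity
    have hpt : ∀ z ∈ closedBall (0 : ℂ) R,
        ‖Real.log ‖F (l * z)‖ / (Real.log N / q) - u z‖ₑ ≤
          ENNReal.ofReal 2 * ‖h (l * z)‖ₑ + ENNReal.ofReal c +
            ‖(V z - q / 2 * z.re) - u z‖ₑ := by
      intro z hz
      rw [mem_closedBall_zero_iff] at hz
      have h1 : Real.log ‖F (l * z)‖ / (Real.log N / q) - u z =
          s * h (l * z) + ((s - 1) * uV (l * z) + (uV (l * z) - uV z)) +
            ((V z - q / 2 * z.re) - u z) := by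
        simp only [hh, hs]
        have : Real.log ‖F (l * z)‖ / (Real.log N / q) =
            q * Λ / Real.log N * (Real.log ‖F (l * z)‖ / Λ) := by
          field_simp
        rw [this]
        simp only [huV]
        ring
      have hlz : ‖(l : ℂ) * z‖ ≤ R' := by
        rw [norm_mul, Complex.norm_real, Real.norm_eq_abs, abs_of_pos hl0]
        exact (mul_le_mul_of_nonneg_left hz hl0.le).trans hlR
      have h2 : |(s - 1) * uV (l * z) + (uV (l * z) - uV z)| ≤ c := by
        calc |(s - 1) * uV (l * z) + (uV (l * z) - uV z)|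
            ≤ |(s - 1) * uV (l * z)| + |uV (l * z) - uV z| := abs_add_le _ _
          _ ≤ (12 * d / q + 4 * (l - 1)) * M₀ + K₁ * ((l - 1) * R) := by
              refine add_le_add ?_ ?_
              · rw [abs_mul]
                exact mul_le_mul hs3 (hM₀le _ hlz) (abs_nonneg _) ((abs_nonneg _).trans hs3)
              · refine (huVl _ _).trans (mul_le_mul_of_nonneg_left ?_ hK₁0)
                have h3 : (l : ℂ) * z - z = ((l - 1 : ℝ) : ℂ) * z := by
                  push_cast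
                  ring
                rw [h3, norm_mul, Complex.norm_real, Real.norm_eq_abs,
                  abs_of_nonneg (by linarith : 0 ≤ l - 1)]
                exact mul_le_mul_of_nonneg_left hz (by linarith)
      rw [h1]
      refine (enorm_add_le _ _).trans (add_le_add_left ((enorm_add_le _ _).trans
        (add_le_add ?_ ?_)) _)
      · rw [enorm_mul]
        refine mul_le_mul_left ?_ _
        rw [← ofReal_norm, Real.norm_eq_abs, abs_of_nonneg hs0]
        exact ENNReal.ofReal_le_ofReal hs2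
      · rw [← ofReal_norm, Real.norm_eq_abs]
        exact ENNReal.ofReal_le_ofReal h2
    have hmeas : Measurable h := by
      refine Measurable.sub (Measurable.div_const ?_ _) huVc.measurable
      exact Real.measurable_log.comp hFd.continuous.norm.measurable
    have hvolB : volume (closedBall (0 : ℂ) R) = ENNReal.ofReal vol := by
      have h5 : (NNReal.pi : ENNReal) = ENNReal.ofReal Real.pi := by
        rw [← NNReal.coe_real_pi, ENNReal.ofReal_coe_nnreal]
      rw [Complex.volume_closedBall, h5, ← ENNReal.ofReal_pow hR.le,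
        ← ENNReal.ofReal_mul (by positivity), hvol]
      congr 1
      ring
    have hcv : c * vol ≤ δ / 8 + δ / 4 := by
      have h1 : 12 * d / q * M₀ * vol ≤ δ / 8 := by
        have h2 : 12 * d / q ≤ δ / (8 * (M₀ * vol + 1)) := by
          rw [div_le_iff₀ hq]
          calc 12 * d ≤ 12 * (δ * q / (96 * (M₀ * vol + 1))) := by linarith
            _ = δ / (8 * (M₀ * vol + 1)) * q := by
                field_simp
                ring
        calc 12 * d / q * M₀ * vol = 12 * d / q * (M₀ * vol) := by ring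
          _ ≤ δ / (8 * (M₀ * vol + 1)) * (M₀ * vol) :=
              mul_le_mul_of_nonneg_right h2 (by positivity)
          _ ≤ δ / (8 * (M₀ * vol + 1)) * (M₀ * vol + 1) :=
              mul_le_mul_of_nonneg_left (by linarith) (by positivity)
          _ = δ / 8 := by
              field_simp
      have h3 : (4 * (l - 1) * M₀ + K₁ * ((l - 1) * R)) * vol ≤ δ / 4 := by
        calc (4 * (l - 1) * M₀ + K₁ * ((l - 1) * R)) * vol
            = (l - 1) * ((4 * M₀ + K₁ * R) * vol) := by ring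
          _ ≤ δ / (4 * ((4 * M₀ + K₁ * R) * vol + 1)) * ((4 * M₀ + K₁ * R) * vol) :=
              mul_le_mul_of_nonneg_right (hl2.trans hη3) (by positivity)
          _ ≤ δ / (4 * ((4 * M₀ + K₁ * R) * vol + 1)) * ((4 * M₀ + K₁ * R) * vol + 1) :=
              mul_le_mul_of_nonneg_left (by linarith) (by positivity)
          _ = δ / 4 := by
              field_simp
      have h8 : c * vol = 12 * d / q * M₀ * vol +
          (4 * (l - 1) * M₀ + K₁ * ((l - 1) * R)) * vol := by
        rw [hc]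
        ring
      rw [h8]
      exact add_le_add h1 h3
    have hscale : ∫⁻ z in closedBall (0 : ℂ) R, ‖h (l * z)‖ₑ ≤ ENNReal.ofReal d :=
      (L1_scale h l R R' hl1 hlR).trans hFL
    have hmeas2 : Measurable fun z : ℂ => ‖h (l * z)‖ₑ :=
      (hmeas.comp (by fun_prop : Measurable fun z : ℂ => (l : ℂ) * z)).enorm
    calc L1 R (fun z => Real.log ‖F (l * z)‖ / (Real.log N / q) - u z)
        ≤ ∫⁻ z in closedBall (0 : ℂ) R, (ENNReal.ofReal 2 * ‖h (l * z)‖ₑ + ENNReal.ofReal c +
            ‖(V z - q / 2 * z.re) - u z‖ₑ) :=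
          setLIntegral_mono' measurableSet_closedBall hpt
      _ = ENNReal.ofReal 2 * (∫⁻ z in closedBall (0 : ℂ) R, ‖h (l * z)‖ₑ) +
            ENNReal.ofReal c * volume (closedBall (0 : ℂ) R) +
            ∫⁻ z in closedBall (0 : ℂ) R, ‖(V z - q / 2 * z.re) - u z‖ₑ := by
          rw [lintegral_add_left ((hmeas2.const_mul _).add_const _),
            lintegral_add_left (hmeas2.const_mul _), lintegral_const_mul _ hmeas2,
            setLIntegral_const]
      _ ≤ ENNReal.ofReal 2 * ENNReal.ofReal d + ENNReal.ofReal c * ENNReal.ofReal vol +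
            ENNReal.ofReal (δ / 4) := by
          rw [hvolB]
          exact add_le_add (add_le_add (mul_le_mul_right hscale _) le_rfl) hVu
      _ = ENNReal.ofReal (2 * d + c * vol + δ / 4) := by
          rw [← ENNReal.ofReal_mul (by norm_num), ← ENNReal.ofReal_mul hc0,
            ← ENNReal.ofReal_add (by positivity) (by positivity),
            ← ENNReal.ofReal_add (by positivity) (by positivity)]
      _ ≤ ENNReal.ofReal δ := ENNReal.ofReal_le_ofReal (by linarith)
  · intro z hz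
    refine hNδ _ ?_
    rw [Complex.re_ofReal_mul]
    have h1 : z.re ≤ l * z.re := le_mul_of_one_le_left (by linarith) hl1
    linarith
  · intro z hz
    refine hF1 _ ?_
    rw [Complex.re_ofReal_mul]
    have h1 : z.re ≤ l * z.re := le_mul_of_one_le_left (by linarith) hl1
    linarith

end Pool.Agent.H5.LIM
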